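import Pool.Agent.Helper270_PL.LargeP

/-!
# Second and third eigenvalues of the `p`-Laplacian on a square, large exponents
-/

open scoped ENNReal

namespace Pool.Agent.Results.MP_8e7180_an.LargeExponent

/-- For the unit square `Ω` and every exponent `400 ≤ p < ∞`, the second and the third variational
(Krasnosel'skii genus) eigenvalue of the Dirichlet `p`-Laplacian satisfy
`λ₂(p;Ω) < λ₃(p;Ω)`. -/
theorem result (p : ℝ≥0∞) [Fact (1 ≤ p)] (hp : p ≠ ∞) (h : 400 ≤ p.toReal) :
    Helper270_PL.lam p 2 < Helper270_PL.lam p 3 :=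
  Helper270_PL.lam_two_lt_lam_three_of_large hp h

end Pool.Agent.Results.MP_8e7180_an.LargeExponent
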