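import Pool.Agent.Helper270_PL.NearTwo

/-!
# Second and third eigenvalues of the `p`-Laplacian on a square, exponents near `2`
-/

open scoped ENNReal

namespace Pool.Agent.Results.MP_8e7180_an.NearTwo

/-- For the unit square `Ω` there is `δ > 0` such that for every exponent `p ≠ 2` with
`|p - 2| < δ` the second and the third variational (Krasnosel'skii genus) eigenvalue of the
Dirichlet `p`-Laplacian satisfy `λ₂(p;Ω) < λ₃(p;Ω)`. -/
theorem result : ∃ δ : ℝ, 0 < δ ∧ ∀ (p : ℝ≥0∞) [Fact (1 ≤ p)], p ≠ ∞ → p.toReal ≠ 2 →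
    |p.toReal - 2| < δ → Helper270_PL.lam p 2 < Helper270_PL.lam p 3 :=
  Helper270_PL.near_two

end Pool.Agent.Results.MP_8e7180_an.NearTwo
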